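import Pool.Agent.Lib.MP_837d34_co.H88Base

namespace Pool.Agent.Results.MP_837d34_co.EvenFamilies

open Pool.Agent.Lib.MP_837d34_co

/-- Infinite families of super edge-magic prisms with an even cycle. -/
theorem result (b n k : ℕ) (hk : Odd k) (hn : 3 ≤ n)
    (h : (b = 6 ∧ n ≤ 7) ∨ (b = 8 ∧ n ≤ 6) ∨ (b = 10 ∧ n ≤ 4) ∨ (b = 12 ∧ n = 3) ∨
      (b = 14 ∧ n = 3)) : IsSEM (prism (b * k) n) := by
  rcases h with ⟨rfl, h⟩ | ⟨rfl, h⟩ | ⟨rfl, h⟩ | ⟨rfl, rfl⟩ | ⟨rfl, rfl⟩ <;>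
    refine isSEM_lift (by norm_num) (by decide) hk ?_
  · interval_cases n
    exacts [base_6_3, base_6_4, base_6_5, base_6_6, base_6_7]
  · interval_cases n
    exacts [base_8_3, base_8_4, base_8_5, base_8_6]
  · interval_cases n
    exacts [base_10_3, base_10_4]
  · exact base_12_3
  · exact base_14_3

end Pool.Agent.Results.MP_837d34_co.EvenFamilies
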