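import Pool.Agent.FS.LongEdge.Prism

namespace Pool.Agent.Results.MP_837d34_co.LongEdge

/-- Every super edge-magic labeling of a prism over an even cycle has an edge whose end labels
differ by `d` with `m (n - 1) + 3 |d| < 4 d ^ 2`. -/
theorem result (m n : ℕ) (hm : 4 ≤ m) (he : Even m) (hn : 2 ≤ n)
    (f : (Fin m × Fin n) ⊕
      ((SimpleGraph.cycleGraph m).boxProd (SimpleGraph.pathGraph n)).edgeSet → ℕ) (k : ℕ)
    (hf : Set.BijOn f Set.univ (Set.Icc 1 (Nat.card (Fin m × Fin n) +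
      Nat.card ((SimpleGraph.cycleGraph m).boxProd (SimpleGraph.pathGraph n)).edgeSet)))
    (hr : (Set.range fun v => f (Sum.inl v)) = Set.Icc 1 (Nat.card (Fin m × Fin n)))
    (hk : ∀ u v (h : ((SimpleGraph.cycleGraph m).boxProd (SimpleGraph.pathGraph n)).Adj u v),
      f (Sum.inl u) + f (Sum.inr ⟨s(u, v), h⟩) + f (Sum.inl v) = k) :
    ∃ u v, ((SimpleGraph.cycleGraph m).boxProd (SimpleGraph.pathGraph n)).Adj u v ∧
      (m : ℤ) * ((n : ℤ) - 1) + 3 * |(f (Sum.inl u) : ℤ) - (f (Sum.inl v) : ℤ)| <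
        4 * ((f (Sum.inl u) : ℤ) - (f (Sum.inl v) : ℤ)) ^ 2 := by
  obtain ⟨m', rfl⟩ : ∃ m', m = m' + 3 := ⟨m - 3, by omega⟩
  obtain ⟨n', rfl⟩ : ∃ n', n = n' + 2 := ⟨n - 2, by omega⟩
  exact Pool.Agent.FS.LongEdge837.prism_long m' n' he f k hf hr hk

end Pool.Agent.Results.MP_837d34_co.LongEdge
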