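import Pool.Agent.Lib.MP_837d34_co.H88Lift

namespace Pool.Agent.Results.MP_837d34_co.OddLift

open Pool.Agent.Lib.MP_837d34_co

/-- If an even prism is super edge-magic, so is each of its odd cyclic covers. -/
theorem result (m n k : ℕ) (hm : 4 ≤ m) (he : Even m) (hk : Odd k) (h : IsSEM (prism m n)) :
    IsSEM (prism (m * k) n) :=
  isSEM_lift hm he hk h

end Pool.Agent.Results.MP_837d34_co.OddLift
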